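import Mathlib

/-! Project S3: the localisation of the integers at a prime number. -/

set_option autoImplicit false

namespace Pool.Agent.W240.S3

theorem core (p : ℕ) (hp : p.Prime) : ∃ (A : Type) (_ : CommRing A) (_ : IsDomain A)
    (_ : IsDiscreteValuationRing A) (_ : Algebra A ℚ), Finite (IsLocalRing.ResidueField A) ∧
    IsFractionRing A ℚ ∧ Irreducible (p : A) ∧
    (∀ n : ℤ, (n : A) ∈ IsLocalRing.maximalIdeal A ↔ (p : ℤ) ∣ n) ∧
    (∀ a : A, ∃ n : ℤ, a - n ∈ IsLocalRing.maximalIdeal A) := by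
  classical
  haveI : Fact p.Prime := ⟨hp⟩
  set P : Ideal ℤ := Ideal.span {(p : ℤ)} with hP
  have hp0 : (p : ℤ) ≠ 0 := by exact_mod_cast hp.ne_zero
  have hPb : P ≠ ⊥ := by
    rw [hP, Ne, Ideal.span_singleton_eq_bot]
    exact hp0
  have hvm : P.IsMaximal := Int.ideal_span_isMaximal_of_prime p
  have hvp : P.IsPrime := hvm.isPrime
  have hle : P.primeCompl ≤ nonZeroDivisors ℤ := P.primeCompl_le_nonZeroDivisors
  let A := Localization.subalgebra.ofField ℚ P.primeCompl hle
  have hloc : IsLocalization.AtPrime A P :=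
    Localization.subalgebra.isLocalization_ofField ℚ P.primeCompl hle
  have hdvr : IsDiscreteValuationRing A :=
    IsLocalization.AtPrime.isDiscreteValuationRing_of_dedekind_domain ℤ hPb A
  have hfr : IsFractionRing A ℚ := inferInstance
  let e : (ℤ ⧸ P) ≃+* IsLocalRing.ResidueField A :=
    IsLocalization.AtPrime.equivQuotMaximalIdeal P A
  have hfin : Finite (IsLocalRing.ResidueField A) := by
    have h1 : Finite (ℤ ⧸ P) := Ideal.finiteQuotientOfFreeOfNeBot _ hPb
    exact Finite.of_equiv _ e.toEquiv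
  have hmem : ∀ n : ℤ, (n : A) ∈ IsLocalRing.maximalIdeal A ↔ (p : ℤ) ∣ n := by
    intro n
    have h1 := IsLocalization.AtPrime.to_map_mem_maximal_iff A P n
    have h2 : (algebraMap ℤ A) n = (n : A) := by simp
    rw [h2] at h1
    rw [h1, hP, Ideal.mem_span_singleton]
  refine ⟨A, inferInstance, inferInstance, hdvr, inferInstance, hfin, hfr, ?_, hmem, ?_⟩
  · have h1 : IsLocalRing.maximalIdeal A = Ideal.span {(p : A)} := by
      rw [← IsLocalization.AtPrime.map_eq_maximalIdeal P A, hP, Ideal.map_span,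
        Set.image_singleton]
      simp
    exact (IsDiscreteValuationRing.irreducible_iff_uniformizer _).2 h1
  · intro a
    obtain ⟨r, hr⟩ := e.surjective (IsLocalRing.residue A a)
    obtain ⟨n, rfl⟩ := Ideal.Quotient.mk_surjective r
    refine ⟨n, ?_⟩
    rw [← IsLocalRing.residue_eq_zero_iff, map_sub, ← hr, map_intCast, sub_eq_zero]
    have h3 : (Ideal.Quotient.mk P) n = (n : ℤ ⧸ P) := by
      exact (eq_intCast (Ideal.Quotient.mk P) n)
    rw [h3, map_intCast]

end Pool.Agent.W240.S3
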