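import Pool.Agent.W262.S3.Stm
import Pool.Agent.W240.S3.ZLocCore

/-! Project S3: the localisation of the integers at a prime number. -/

set_option autoImplicit false

namespace Pool.Agent.W240.S3

theorem zloc : Pool.Agent.W262.S3.ZLOC := core

end Pool.Agent.W240.S3
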